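import Mathlib
import Pool.Agent.helper50.BW.D14
import Pool.Agent.helper50.BW.M18
/-! PV project (MP_c0bc55_al): the word problem of the free Burnside group is computable. -/
namespace Pool.Agent.helper23.PV
open Pool.Agent.helper50.BW

/-- all registers of the program are below K -/
def Bd (K : ℕ) : Pg → Prop
  | .skip => True
  | .push r _ => r < K
  | .seq a b => Bd K a ∧ Bd K b
  | .case r a => r < K ∧ ∀ o, Bd K (a o)
  | .loop r a => r < K ∧ ∀ c, Bd K (a c)

theorem Bd.mono {K K' : ℕ} (h : K ≤ K') : ∀ P : Pg, Bd K P → Bd K' P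
  | .skip, _ => trivial
  | .push _ _, hb => lt_of_lt_of_le hb h
  | .seq a b, hb => ⟨Bd.mono h a hb.1, Bd.mono h b hb.2⟩
  | .case _ a, hb => ⟨lt_of_lt_of_le hb.1 h, fun o => Bd.mono h (a o) (hb.2 o)⟩
  | .loop _ a, hb => ⟨lt_of_lt_of_le hb.1 h, fun o => Bd.mono h (a o) (hb.2 o)⟩

theorem exists_Bd (P : Pg) : ∃ K, Bd K P := by
  induction P with
  | skip => exact ⟨0, trivial⟩
  | push r c => exact ⟨r + 1, Nat.lt_succ_self r⟩
  | seq a b iha ihb =>
    obtain ⟨K, hK⟩ := iha
    obtain ⟨K', hK'⟩ := ihb
    exact ⟨max K K', Bd.mono (le_max_left _ _) _ hK, Bd.mono (le_max_right _ _) _ hK'⟩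
  | case r a ih =>
    choose K hK using ih
    refine ⟨max (r + 1) (Finset.univ.sup K), lt_of_lt_of_le (Nat.lt_succ_self r) (le_max_left _ _),
      fun o => Bd.mono ?_ _ (hK o)⟩
    exact le_trans (Finset.le_sup (f := K) (Finset.mem_univ o)) (le_max_right _ _)
  | loop r a ih =>
    choose K hK using ih
    refine ⟨max (r + 1) (Finset.univ.sup K), lt_of_lt_of_le (Nat.lt_succ_self r) (le_max_left _ _),
      fun o => Bd.mono ?_ _ (hK o)⟩
    exact le_trans (Finset.le_sup (f := K) (Finset.mem_univ o)) (le_max_right _ _)

/-- the first K registers -/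
def rs (K : ℕ) (σ : St) : Fin K → List Sy := fun i => σ i

theorem rs_update {K r : ℕ} (hr : r < K) (σ : St) (l : List Sy) :
    rs K (Function.update σ r l) = Function.update (rs K σ) ⟨r, hr⟩ l := by
  funext i
  by_cases h : i = ⟨r, hr⟩
  · subst h; simp [rs]
  · have h' : (i : ℕ) ≠ r := fun e => h (Fin.ext e)
    simp [rs, Function.update_of_ne h, Function.update_of_ne h']

theorem primrec_update {K : ℕ} (r : Fin K) :
    Primrec₂ (fun (s : Fin K → List Sy) (l : List Sy) => Function.update s r l) := by
  have h : Primrec₂ (fun (p : (Fin K → List Sy) × List Sy) (i : Fin K) => if i = r then p.2 else p.1 i) := by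
    refine Primrec.ite ?_ ?_ ?_
    · exact Primrec.eq.comp Primrec.snd (Primrec.const r)
    · exact Primrec.snd.comp Primrec.fst
    · exact Primrec.fin_app.comp (Primrec.fst.comp Primrec.fst) Primrec.snd
  have h2 : Primrec (fun (p : (Fin K → List Sy) × List Sy) => (fun i : Fin K => if i = r then p.2 else p.1 i)) :=
    Primrec.fin_curry.2 h
  refine h2.of_eq ?_
  rintro ⟨s, l⟩
  funext i
  simp only [Function.update_apply]

theorem primrec_app {K : ℕ} (r : Fin K) : Primrec (fun s : Fin K → List Sy => s r) :=
  Primrec.fin_app.comp Primrec.id (Primrec.const r)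

/-- finite case distinction -/
theorem partrec_sy {α β : Type} [Primcodable α] [Primcodable β] (F : Sy → α →. β) (hF : ∀ c, Partrec (F c)) :
    Partrec (fun p : Sy × α => F p.1 p.2) := by
  have h : Partrec (fun p : Sy × α => cond (decide (p.1 = 0)) (F 0 p.2)
      (cond (decide (p.1 = 1)) (F 1 p.2) (cond (decide (p.1 = 2)) (F 2 p.2) (F 3 p.2)))) := by
    have hd : ∀ c : Sy, Computable (fun p : Sy × α => decide (p.1 = c)) := fun c =>
      (Primrec.eq.decide.comp Primrec.fst (Primrec.const c)).to_comp
    refine Partrec.cond (hd 0) ((hF 0).comp Computable.snd) ?_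
    refine Partrec.cond (hd 1) ((hF 1).comp Computable.snd) ?_
    exact Partrec.cond (hd 2) ((hF 2).comp Computable.snd) ((hF 3).comp Computable.snd)
  refine h.of_eq ?_
  rintro ⟨c, a⟩
  fin_cases c <;> simp

/-- simulation of stack programs by partial recursive functions -/
theorem sim {K : ℕ} (P : Pg) : Bd K P →
    ∃ f : (Fin K → List Sy) →. (Fin K → List Sy), Partrec f ∧
      ∀ σ t σ', Ex P σ t σ' → rs K σ' ∈ f (rs K σ) := by
  induction P with
  | skip =>
    intro _
    refine ⟨fun s => Part.some s, Partrec.some, ?_⟩
    intro σ t σ' h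
    cases h
    exact Part.mem_some _
  | push r c =>
    intro hr
    refine ⟨fun s => Part.some (Function.update s ⟨r, hr⟩ (c :: s ⟨r, hr⟩)), ?_, ?_⟩
    · refine Computable.partrec ?_
      refine ((primrec_update _).comp Primrec.id ?_).to_comp
      exact Primrec.list_cons.comp (Primrec.const c) (primrec_app _)
    · intro σ t σ' h
      cases h
      rw [rs_update hr]
      exact Part.mem_some _
  | seq a b iha ihb =>
    intro hb
    obtain ⟨f, hf, hf'⟩ := iha hb.1
    obtain ⟨g, hg, hg'⟩ := ihb hb.2
    refine ⟨fun s => (f s).bind g, Partrec.bind hf (hg.comp Computable.snd).to₂, ?_⟩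
    intro σ t σ' h
    cases h with
    | seq h1 h2 => exact Part.mem_bind (hf' _ _ _ h1) (hg' _ _ _ h2)
  | case r a ih =>
    intro hb
    obtain ⟨hr, hb⟩ := hb
    choose f hf hf' using fun o => ih o (hb o)
    set r' : Fin K := ⟨r, hr⟩ with hr'
    have hc : Computable (fun s : Fin K → List Sy => ((s r').headI, Function.update s r' (s r').tail)) :=
      (Primrec.pair (Primrec.list_headI.comp (primrec_app r'))
        ((primrec_update r').comp Primrec.id (Primrec.list_tail.comp (primrec_app r')))).to_comp
    have he : Computable (fun s : Fin K → List Sy => decide (s r' = [])) :=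
      (Primrec.eq.decide.comp (primrec_app r') (Primrec.const [])).to_comp
    refine ⟨fun s => cond (decide (s r' = [])) (f none s)
      ((fun p : Sy × (Fin K → List Sy) => f (some p.1) p.2)
        ((s r').headI, Function.update s r' (s r').tail)), ?_, ?_⟩
    · exact Partrec.cond he (hf none)
        ((partrec_sy (fun c => f (some c)) (fun c => hf (some c))).comp hc)
    · intro σ t σ' h
      cases h with
      | case_nil h h' =>
        have : rs K σ r' = [] := h
        simp only [this, decide_true, cond_true]
        exact hf' _ _ _ _ h'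
      | @case_cons _ _ c l _ _ _ h h' =>
        have : rs K σ r' = c :: l := h
        simp only [this, reduceCtorEq, decide_false, cond_false, List.headI_cons, List.tail_cons]
        rw [← rs_update hr]
        exact hf' _ _ _ _ h'
  | loop r a ih =>
    intro hb
    obtain ⟨hr, hb⟩ := hb
    choose f hf hf' using fun o => ih o (hb o)
    set r' : Fin K := ⟨r, hr⟩ with hr'
    have hc : Computable (fun s : Fin K → List Sy => ((s r').headI, Function.update s r' (s r').tail)) :=
      (Primrec.pair (Primrec.list_headI.comp (primrec_app r'))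
        ((primrec_update r').comp Primrec.id (Primrec.list_tail.comp (primrec_app r')))).to_comp
    have he : Computable (fun s : Fin K → List Sy => decide (s r' = [])) :=
      (Primrec.eq.decide.comp (primrec_app r') (Primrec.const [])).to_comp
    set g : (Fin K → List Sy) →. (Fin K → List Sy) ⊕ (Fin K → List Sy) :=
      fun s => cond (decide (s r' = [])) (Part.some (Sum.inl s))
        (((fun p : Sy × (Fin K → List Sy) => f p.1 p.2)
          ((s r').headI, Function.update s r' (s r').tail)).map Sum.inr) with hg
    have hgp : Partrec g := by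
      refine Partrec.cond he (Computable.sumInl.comp Computable.id).partrec ?_
      exact ((partrec_sy f hf).comp hc).map (Computable.sumInr.comp Computable.snd).to₂
    refine ⟨PFun.fix g, Partrec.fix hgp, ?_⟩
    intro σ t σ' h
    generalize hP : Pg.loop r a = P at h
    induction h with
    | skip => cases hP
    | push => cases hP
    | seq => cases hP
    | case_nil => cases hP
    | case_cons => cases hP
    | @loop_nil r₁ a₁ σ h =>
      cases hP
      rw [PFun.mem_fix_iff]
      left
      have : rs K σ r' = [] := h
      simp only [hg, this, decide_true, cond_true]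
      exact Part.mem_some _
    | @loop_cons r₁ a₁ c l σ σ' σ'' t t' h h1 h2 _ ih2 =>
      cases hP
      rw [PFun.mem_fix_iff]
      right
      refine ⟨rs K σ', ?_, ih2 rfl⟩
      have : rs K σ r' = c :: l := h
      simp only [hg, this, reduceCtorEq, decide_false, cond_false, List.headI_cons, List.tail_cons]
      rw [← rs_update hr]
      exact Part.mem_map _ (hf' _ _ _ _ h1)

theorem bits_eq (n : ℕ) (h : n ≠ 0) : n.bits = n.bodd :: n.div2.bits := by
  conv_lhs => rw [← Nat.bit_bodd_div2 n]
  refine Nat.bits_append_bit _ _ ?_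
  intro h0
  have h1 := Nat.bit_bodd_div2 n
  rw [h0] at h1
  by_contra h2
  simp only [Bool.not_eq_true] at h2
  rw [h2] at h1
  exact h (by simpa using h1.symm)

theorem primrec_bits : Primrec Nat.bits := by
  have h : Primrec₂ (fun (_ : Unit) (n : ℕ) => n.bits) := by
    refine Primrec.nat_strong_rec (fun (_ : Unit) (n : ℕ) => n.bits)
      (g := fun _ l => if l.length = 0 then some []
        else (l[l.length.div2]?).map (fun b => l.length.bodd :: b)) ?_ ?_
    · refine Primrec.ite ?_ (Primrec.const _) ?_
      · exact Primrec.eq.comp (Primrec.list_length.comp Primrec.snd) (Primrec.const 0)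
      · refine Primrec.option_map ?_ ?_
        · exact Primrec.list_getElem?.comp Primrec.snd
            (Primrec.nat_div2.comp (Primrec.list_length.comp Primrec.snd))
        · refine Primrec.list_cons.comp ?_ Primrec.snd
          exact Primrec.nat_bodd.comp (Primrec.list_length.comp (Primrec.snd.comp Primrec.fst))
    · intro _ n
      by_cases hn : n = 0
      · subst hn; simp
      · have hlt : n.div2 < n := by
          rw [Nat.div2_val]; omega
        simp only [List.length_map, List.length_range, hn, if_false]
        rw [List.getElem?_map, List.getElem?_range hlt]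
        simp only [Option.map_some]
        rw [← bits_eq n hn]
  exact h.comp (Primrec.const ()) Primrec.id

/-- code of a letter as work symbols -/
def codeS (a : ℕ × Bool) : List Sy :=
  (if a.2 = true then 2 else 3) :: ((Nat.bits (a.1 + 1)).reverse.tail).map fun b => if b = true then 1 else 0

theorem primrec_codeS : Primrec codeS := by
  refine Primrec.list_cons.comp ?_ ?_
  · exact Primrec.ite (Primrec.eq.comp Primrec.snd (Primrec.const true)) (Primrec.const 2) (Primrec.const 3)
  · refine Primrec.list_map ?_ ?_
    · exact Primrec.list_tail.comp (Primrec.list_reverse.comp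
        (primrec_bits.comp (Primrec.succ.comp Primrec.fst)))
    · exact Primrec.ite (Primrec.eq.comp Primrec.snd (Primrec.const true)) (Primrec.const 1) (Primrec.const 0)

theorem code_map (a : ℕ × Bool) : (code a).map A4.sy = codeS a := by
  obtain ⟨n, b⟩ := a
  unfold code codeS dig
  have h : (Nat.bits (n + 1)).dropLast.reverse = (Nat.bits (n + 1)).reverse.tail := by
    rw [List.tail_reverse]
  simp only [List.map_cons, List.map_map]
  rw [h]
  refine congrArg₂ _ ?_ ?_
  · cases b <;> rfl
  · refine List.map_congr_left ?_
    intro c _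
    cases c <;> rfl

theorem encW_map (w : W) : (encW w).map A4.sy = w.flatMap codeS := by
  unfold encW
  rw [List.map_flatMap]
  refine List.flatMap_congr ?_
  intro a _
  exact code_map a

/-- the start state -/
theorem primrec_inp (K : ℕ) : Primrec (fun w : W => rs K (inp (encW w))) := by
  have h : Primrec₂ (fun (w : W) (i : Fin K) => if (i : ℕ) = 0 then (w.flatMap codeS).reverse else []) := by
    refine Primrec.ite ?_ ?_ (Primrec.const _)
    · exact Primrec.eq.comp (Primrec.fin_val.comp Primrec.snd) (Primrec.const 0)
    · exact Primrec.list_reverse.comp (Primrec.list_flatMap Primrec.fst (primrec_codeS.comp Primrec.snd).to₂)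
  refine (Primrec.fin_curry.2 h).of_eq ?_
  intro w
  funext i
  simp only [rs, inp, encW_map]

theorem triv_dec_of (d : ℕ) (h : DecStatement d) : ComputablePred (fun w : List (ℕ × Bool) => Triv d w) := by
  classical
  obtain ⟨P, C, hP⟩ := h
  obtain ⟨K₀, hK₀⟩ := exists_Bd P
  obtain ⟨K, hK, hK2⟩ : ∃ K, Bd K P ∧ 1 < K := ⟨max K₀ 2, Bd.mono (le_max_left _ _) _ hK₀, by
    exact lt_of_lt_of_le (by norm_num) (le_max_right _ _)⟩
  obtain ⟨f, hf, hf'⟩ := sim P hK
  refine ⟨fun w => Classical.propDecidable _, ?_⟩
  have h1 : Partrec (fun w : W => (f (rs K (inp (encW w)))).map (fun s => !decide (s ⟨1, hK2⟩ = []))) := by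
    refine Partrec.map (hf.comp (primrec_inp K).to_comp) ?_
    have h0 : Primrec (fun q : W × (Fin K → List Sy) => !decide (q.2 ⟨1, hK2⟩ = [])) :=
      Primrec.not.comp (Primrec.eq.decide.comp ((primrec_app _).comp Primrec.snd) (Primrec.const []))
    exact h0.to_comp.to₂
  refine Partrec.of_eq h1 ?_
  intro w
  obtain ⟨σ', t, hE, -, hT⟩ := hP w
  have h2 := hf' _ _ _ hE
  rw [Part.eq_some_iff.2 h2, Part.map_some]
  congr 1
  have h3 : rs K σ' ⟨1, hK2⟩ = σ' 1 := rfl
  rw [h3]
  by_cases h4 : Triv d w
  · have := hT.2 h4
    simp [h4, this]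
  · have : σ' 1 = [] := by
      by_contra h5
      exact h4 (hT.1 h5)
    simp [h4, this]

/-- the word problem of the free Burnside groups of large odd exponent is computable -/
theorem triv_dec : ∃ d₀ : ℕ, ∀ d ≥ d₀, Odd d → ComputablePred (fun w : List (ℕ × Bool) => Triv d w) := by
  obtain ⟨d₀, h⟩ := dec_statement main_statement
  exact ⟨d₀, fun d hd ho => triv_dec_of d (h d hd ho)⟩

end Pool.Agent.helper23.PV
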